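import Pool.Agent.GBS.StmtsB
import Pool.Agent.Helper94_MVS.BR1
import Pool.Agent.Helper23_MVS.BR3
import Pool.Agent.Helper60_MVS.PAR
import Pool.Agent.Helper38_MVS.RND

/-!
# GBS: row FIN (the final theorem)
-/

noncomputable section

open scoped ContDiff Topology RealInnerProductSpace
open Set MeasureTheory Matrix

namespace Pool.Agent.GBS.H41

open Pool.Agent.RF Pool.Agent.MVS Pool.Agent.GBS
open Pool.Agent.SecondKind Pool.Agent.MinVolSphere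

theorem secLe_of_abs {g : Form 4} (h : AbsSecLeOne g) : SecLeOne g := fun U ψ hψ y hy a b =>
  (le_abs_self _).trans (h U ψ hψ y hy a b)

theorem secGe_of_abs {g : Form 4} (h : AbsSecLeOne g) : SecGe (-1) g := fun U ψ hψ y hy a b => by
  have h1 := (abs_le.1 (h U ψ hψ y hy a b)).1
  linarith

theorem area_nonneg {g : Form 4} (h : AbsSecLeOne g) {U : Set (Fin 4 → ℝ)}
    {ψ : (Fin 4 → ℝ) → Fin 5 → ℝ} (hψ : IsParam U ψ) {y : Fin 4 → ℝ} (hy : y ∈ U)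
    (a b : Fin 4 → ℝ) : 0 ≤ area2 (comp g ψ) y a b :=
  (abs_nonneg _).trans (h U ψ hψ y hy a b)

theorem integ_zero (g : Form 4) : integ g (fun _ => 0) = 0 := by
  unfold integ
  simp

theorem fin (h1 : Mn1Stmt) (h2 : Mn2Stmt) (hS : ScbStmt) (hI : PinStmt) (hP : PexStmt)
    (hR : RdoStmt) : FinStmt := by
  have br1 : Br1Statement := MVS.H94.br1 MVS.H60.par
  have br3 : Br3Statement := MVS.H23.br3
  obtain ⟨r1, r2, -, r4⟩ : IsMetric MVS.H38.rg ∧ AbsSecLeOne MVS.H38.rg ∧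
    (∀ a b, Invariant a b MVS.H38.rg) ∧ vol MVS.H38.rg = 8 * Real.pi ^ 2 / 3 := MVS.H38.rnd
  obtain ⟨q1, q2, q3⟩ := hR
  have hex : ∀ g : Form 4, IsMetric g → ∃ G : E5 → Bil E5, Cyl2 g G ∧
      ∫ x in slab (Fin 5), sd (G x) = vol g := by
    intro g hg
    obtain ⟨G, hG, ht⟩ := br1 g hg
    exact ⟨G, ⟨hG, ht⟩, br3 g G hg hG ht⟩
  have A : ∀ g : Form 4, IsMetric g → AbsSecLeOne g →
      (∃ P, IsPont g P ∧ ContinuousOn P {x | OnSphere x}) ∧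
      ∀ P, IsPont g P → 8 * Real.pi ^ 2 / 3 ≤ vol g + (1 / 12) * integ g P := by
    intro g hg ha
    obtain ⟨G, hc, hv⟩ := hex g hg
    refine ⟨(hP g G hc).1, fun P hPg => ?_⟩
    obtain ⟨i1, i2⟩ := hI g G hc P hPg
    obtain ⟨s1, s2, -⟩ := hS g G hc
    have h := h1 G hc.1 i1 fun x hx F hF u v =>
      ⟨s2 (-1) (secGe_of_abs ha) x hx F hF u v, s1 (secLe_of_abs ha) x hx F hF u v⟩
    rw [hv, i2] at h
    linarith
  have B : ∀ g : Form 4, IsMetric g → SecLeOne g → ScalGe (36 / 5) g →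
      8 * Real.pi ^ 2 / 3 ≤ vol g := by
    intro g hg hs hc
    obtain ⟨G, hcy, hv⟩ := hex g hg
    obtain ⟨s1, -, s3⟩ := hS g G hcy
    have h := h2.1 G hcy.1 fun x hx F hF => ⟨s1 hs x hx F hF, by
      have := s3 (36 / 5) hc x hx F hF
      linarith⟩
    rw [hv] at h
    linarith
  have C : ∀ (g : Form 4) (c : ℝ), IsMetric g → 0 ≤ c → c ≤ 1 → SecLeOne g → SecGe (-c) g →
      8 * Real.pi ^ 2 / 3 ≤ max 1 ((8 + 4 * c + 5 * c ^ 2) / 9) * vol g := by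
    intro g c hg hc0 hc1 hs hc
    obtain ⟨G, hcy, hv⟩ := hex g hg
    obtain ⟨s1, s2, -⟩ := hS g G hcy
    have h := h2.2 G c hcy.1 hc0 hc1 fun x hx F hF u v =>
      ⟨s2 (-c) hc x hx F hF u v, s1 hs x hx F hF u v⟩
    rw [hv, mul_assoc] at h
    linarith
  have C1 : ∀ g : Form 4, IsMetric g → AbsSecLeOne g → 24 * Real.pi ^ 2 / 17 ≤ vol g := by
    intro g hg ha
    have h := C g 1 hg zero_le_one le_rfl (secLe_of_abs ha) (secGe_of_abs ha)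
    rw [show (8 + 4 * (1 : ℝ) + 5 * 1 ^ 2) / 9 = 17 / 9 by norm_num,
      max_eq_right (by norm_num : (1 : ℝ) ≤ 17 / 9)] at h
    linarith
  have C5 : ∀ g : Form 4, IsMetric g → SecLeOne g → SecGe (-(1 / 5)) g →
      8 * Real.pi ^ 2 / 3 ≤ vol g := by
    intro g hg hs hc
    have h := C g (1 / 5) hg (by norm_num) (by norm_num) hs hc
    rw [show (8 + 4 * (1 / 5 : ℝ) + 5 * (1 / 5) ^ 2) / 9 = 1 by norm_num, max_self, one_mul] at h
    exact h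
  have hval : ∀ S : Set ℝ, (∀ V ∈ S, 8 * Real.pi ^ 2 / 3 ≤ V) → 8 * Real.pi ^ 2 / 3 ∈ S →
      sInf S = 8 * Real.pi ^ 2 / 3 := fun S hl hm =>
    le_antisymm (csInf_le ⟨_, hl⟩ hm) (le_csInf ⟨_, hm⟩ hl)
  refine ⟨A, B, C, ⟨?_, ?_⟩, ?_, ?_, ?_⟩
  · refine le_csInf ⟨_, MVS.H38.rg, r1, r2, rfl⟩ ?_
    rintro V ⟨g, hg, ha, rfl⟩
    exact C1 g hg ha
  · refine csInf_le ⟨24 * Real.pi ^ 2 / 17, ?_⟩ ⟨MVS.H38.rg, r1, r2, r4⟩
    rintro V ⟨g, hg, ha, rfl⟩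
    exact C1 g hg ha
  · refine hval _ ?_ ⟨MVS.H38.rg, r1, r2, q3, r4⟩
    rintro V ⟨g, hg, ha, hp, rfl⟩
    have h := (A g hg ha).2 _ hp
    rw [integ_zero, mul_zero, add_zero] at h
    exact h
  · refine hval _ ?_ ⟨MVS.H38.rg, r1, secLe_of_abs r2, fun U ψ hψ y hy a b => ?_, r4⟩
    · rintro V ⟨g, hg, hs, hc, rfl⟩
      exact C5 g hg hs hc
    · have h3 := q1 U ψ hψ y hy a b
      have h4 := area_nonneg r2 hψ hy a b
      linarith
  · refine hval _ ?_ ⟨MVS.H38.rg, r1, secLe_of_abs r2, fun U ψ hψ y hy e he => ?_, r4⟩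
    · rintro V ⟨g, hg, hs, hc, rfl⟩
      exact B g hg hs hc
    · have h3 := q2 U ψ hψ y hy e he
      linarith

end Pool.Agent.GBS.H41
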