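import Pool.Agent.GBS.StmtsB
import Pool.Agent.Helper36_RF.Chr
import Pool.Agent.Helper9_RF.Sym
import Pool.Agent.Helper5_RF.Cyl

/-!
# GBS: row KHF (curvature matrices in a frame)
-/

noncomputable section

open scoped ContDiff Topology RealInnerProductSpace
open Set MeasureTheory Matrix

namespace Pool.Agent.GBS.H41

open Pool.Agent.RF Pool.Agent.MVS Pool.Agent.GBS

section Lin

variable {G : E5 → Bil E5} {x : E5}

/-- `riem` as a linear map of the first argument -/
def L1 (hG : IsCyl G) (hx : x ∈ Om (Fin 5)) (v w : E5) : E5 →ₗ[ℝ] E5 where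
  toFun u := riem G x u v w
  map_add' u u' := RF.H5.riem_add1 chrStatement hG.metric hx u u' v w
  map_smul' c u := RF.H5.riem_smul1 chrStatement hG.metric hx c u v w

/-- the second argument -/
def L2 (hG : IsCyl G) (hx : x ∈ Om (Fin 5)) (u w : E5) : E5 →ₗ[ℝ] E5 where
  toFun v := riem G x u v w
  map_add' v v' := RF.H5.riem_add2 chrStatement hG.metric hx u v v' w
  map_smul' c v := RF.H5.riem_smul2 chrStatement hG.metric hx c u v w

/-- the third argument -/
def L3 (hG : IsCyl G) (hx : x ∈ Om (Fin 5)) (u v : E5) : E5 →ₗ[ℝ] E5 where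
  toFun w := riem G x u v w
  map_add' w w' := RF.H5.riem_add3 chrStatement hG.metric hx u v w w'
  map_smul' c w := RF.H5.riem_smul3 chrStatement hG.metric hx c u v w

theorem sum1 (hG : IsCyl G) (hx : x ∈ Om (Fin 5)) (c : Fin 5 → ℝ) (e : Fin 5 → E5) (v w : E5) :
    riem G x (∑ m, c m • e m) v w = ∑ m, c m • riem G x (e m) v w := by
  have h := map_sum (L1 hG hx v w) (fun m => c m • e m) Finset.univ
  simp only [map_smul] at h
  exact h

theorem sum2 (hG : IsCyl G) (hx : x ∈ Om (Fin 5)) (c : Fin 5 → ℝ) (e : Fin 5 → E5) (u w : E5) :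
    riem G x u (∑ m, c m • e m) w = ∑ m, c m • riem G x u (e m) w := by
  have h := map_sum (L2 hG hx u w) (fun m => c m • e m) Finset.univ
  simp only [map_smul] at h
  exact h

theorem sum3 (hG : IsCyl G) (hx : x ∈ Om (Fin 5)) (c : Fin 5 → ℝ) (e : Fin 5 → E5) (u v : E5) :
    riem G x u v (∑ m, c m • e m) = ∑ m, c m • riem G x u v (e m) := by
  have h := map_sum (L3 hG hx u v) (fun m => c m • e m) Finset.univ
  simp only [map_smul] at h
  exact h

end Lin

theorem comp_sum (c : Fin 5 → ℝ) (e : Fin 5 → E5) (j : Fin 5) :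
    (∑ m, c m • e m) j = ∑ m, c m * (e m) j := by
  have h := map_sum (EuclideanSpace.proj j : E5 →L[ℝ] ℝ) (fun m => c m • e m) Finset.univ
  simp only [map_smul, smul_eq_mul] at h
  exact h

theorem khf (hE : EmxStmt) : KhfStmt := by
  intro G x F hG hx hF
  obtain ⟨-, e1, e2, -, e4, -, -, e7⟩ := hE G x F hG hx hF
  have hc := RF.H5.cyl chrStatement (Fin 5) G hG x hx
  obtain ⟨-, c2, c3, -⟩ := hc
  have hs := RF.H9.sym chrStatement (Fin 5) G (Om (Fin 5)) hG.metric x hx
  obtain ⟨s1, -, s3, -⟩ := hs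
  set θ := (Em x F)⁻¹ with hθ
  have hcol : ∀ i m, Em x F i m = (ef x F m) i := fun i m => rfl
  have heb : ∀ i : Fin 5, (eb i : E5) = ∑ m, θ m i • ef x F m := by
    intro i
    ext j
    rw [comp_sum]
    have h1 : (Em x F * θ) j i = (1 : M5) j i := by rw [e1]
    rw [Matrix.mul_apply, Matrix.one_apply] at h1
    have h2 : (eb i : E5) j = if j = i then 1 else 0 := by
      simp [eb]
    rw [h2, ← h1]
    refine Finset.sum_congr rfl fun m _ => ?_
    rw [hcol, mul_comm]
  have k3 : ∀ m n a b, Kh G x F m n a b = - Kh G x F n m a b := by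
    intro m n a b
    unfold Kh
    rw [s1 (ef x F m) (ef x F n) (ef x F a), map_neg]
    rfl
  have k4 : ∀ m n a b, Kh G x F m n a b = - Kh G x F m n b a := fun m n a b => s3 _ _ _ _
  have hx0 : ef x F 0 = x := rfl
  have k0 : ∀ n a b, Kh G x F 0 n a b = 0 := by
    intro n a b
    unfold Kh
    rw [hx0, c2]
    simp
  have k0' : ∀ m n b, Kh G x F m n 0 b = 0 := by
    intro m n b
    unfold Kh
    rw [hx0, c3]
    simp
  have main : ∀ i j, Rm G x i j = ∑ m, ∑ n, (θ m i * θ n j) •
      (Em x F * Matrix.of (fun b a => Kh G x F m n a b) * θ) := by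
    intro i j
    ext a b
    have h1 : Rm G x i j a b = (riem G x (eb i) (eb j) (eb b)) a := rfl
    have h2 : riem G x (eb i) (eb j) (eb b) = ∑ m, θ m i • ∑ n, θ n j • ∑ c, θ c b •
        ∑ d, Kh G x F m n c d • ef x F d := by
      rw [heb i, sum1 hG hx]
      refine Finset.sum_congr rfl fun m _ => ?_
      congr 1
      rw [heb j, sum2 hG hx]
      refine Finset.sum_congr rfl fun n _ => ?_
      congr 1
      rw [heb b, sum3 hG hx]
      refine Finset.sum_congr rfl fun c _ => ?_
      congr 1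
      exact e7 _
    rw [h1, h2, comp_sum, Matrix.sum_apply]
    refine Finset.sum_congr rfl fun m _ => ?_
    rw [comp_sum, Matrix.sum_apply, Finset.mul_sum]
    refine Finset.sum_congr rfl fun n _ => ?_
    rw [comp_sum, Matrix.smul_apply, smul_eq_mul, Matrix.mul_apply, mul_assoc]
    congr 2
    refine Finset.sum_congr rfl fun c _ => ?_
    rw [comp_sum, Matrix.mul_apply, mul_comm]
    congr 1
    refine Finset.sum_congr rfl fun d _ => ?_
    rw [Matrix.of_apply, hcol, mul_comm]
  refine ⟨?_, fun m n a b => rfl, k3, k4, main, ?_⟩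
  · intro m n a b h
    rcases h with h | h | h | h
    · rw [h]
      exact k0 _ _ _
    · rw [h, k3, k0, neg_zero]
    · rw [h]
      exact k0' _ _ _
    · rw [h, k4, k0', neg_zero]
  · intro i j
    unfold Sm
    rw [main i j, e4, Finset.sum_mul]
    refine Finset.sum_congr rfl fun m _ => ?_
    rw [Finset.sum_mul]
    refine Finset.sum_congr rfl fun n _ => ?_
    rw [Matrix.smul_mul]
    congr 1
    calc (Em x F * Matrix.of (fun b a => Kh G x F m n a b) * θ) * (Em x F * (Em x F)ᵀ)
        = Em x F * Matrix.of (fun b a => Kh G x F m n a b) * (θ * Em x F) * (Em x F)ᵀ := by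
          simp only [Matrix.mul_assoc]
      _ = _ := by rw [e2, Matrix.mul_one]

end Pool.Agent.GBS.H41
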