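import Pool.Agent.GBS.StmtsB
import Pool.Agent.Helper92_GBS.ALG

/-!
# GBS: row MN2 (the integrated inequalities for `K ≤ 1`, `scal ≥ 36/5` and for `-c ≤ K ≤ 1`)
-/

noncomputable section

open scoped ContDiff Topology RealInnerProductSpace
open Set MeasureTheory Matrix

namespace Pool.Agent.GBS.H41

open Pool.Agent.RF Pool.Agent.MVS Pool.Agent.GBS

theorem slab_om {x : E5} (hx : x ∈ slab (Fin 5)) : x ∈ Om (Fin 5) := by
  intro h0
  have h1 : 1 < ‖x‖ := hx.1
  rw [h0, norm_zero] at h1
  linarith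

theorem meas_slab : MeasurableSet (slab (Fin 5)) := by
  have h1 : IsOpen (slab (Fin 5)) :=
    (isOpen_lt continuous_const continuous_norm).inter (isOpen_lt continuous_norm continuous_const)
  exact h1.measurableSet

/-- integration of a pointwise bound -/
theorem int_bound (hC : CgbStmt) (hF : FrmStmt) (hR : FraStmt) (hN : CntStmt) {G : E5 → Bil E5}
    (hG : IsCyl G) {κ : ℝ}
    (h : ∀ x ∈ Om (Fin 5), ∀ F, IsAF G x F → E4 (Kf G x F) ≤ 96 * κ) :
    256 * Real.pi ^ 2 ≤ 96 * κ * (∫ x in slab (Fin 5), sd (G x)) := by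
  obtain ⟨hi, he⟩ := hC G hG
  obtain ⟨-, -, hs, -⟩ := hN G hG
  rw [← he, ← integral_const_mul]
  refine setIntegral_mono_on hi (hs.const_mul _) meas_slab fun x hx => ?_
  obtain ⟨F, hAF⟩ := hF G x hG (slab_om hx)
  rw [hR G x F hG (slab_om hx) hAF, mul_comm]
  exact mul_le_mul_of_nonneg_right (h x (slab_om hx) F hAF) (Real.sqrt_nonneg _)

theorem mn2 (hC : CgbStmt) (hF : FrmStmt) (hR : FraStmt) (hA : ActStmt) (hN : CntStmt)
    (hS : Sg1Stmt) : Mn2Stmt := by
  refine ⟨fun G hG h => ?_, fun G c hG hc0 hc1 h => ?_⟩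
  · have h1 := int_bound hC hF hR hN hG (κ := 1) fun x hx F hAF => by
      obtain ⟨hu, hs⟩ := h x hx F hAF
      have hK := hA G x F hG hx
      have hs1 := hS _ hK hu
      have h2 := H92.alg2 hK (fun u v => by
        have := hu u v
        rwa [one_mul] at this)
      refine h2.trans ?_
      have h3 : (sg (Kf G x F) - 3 / 5) * (1 - sg (Kf G x F)) ≥ 0 :=
        mul_nonneg (by linarith) (by linarith)
      nlinarith
    rwa [mul_one] at h1
  · exact int_bound hC hF hR hN hG fun x hx F hAF => by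
      have hK := hA G x F hG hx
      refine H92.alg3 hK hc0 hc1 (fun u v => ?_) (fun u v => ?_)
      · have := (h x hx F hAF u v).2
        rwa [one_mul] at this
      · have := (h x hx F hAF u v).1
        linarith

end Pool.Agent.GBS.H41
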