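import Pool.Agent.GBS.StmtsB

/-!
# GBS: row PFR (the Pontryagin density in a frame)
-/

noncomputable section

open scoped ContDiff Topology RealInnerProductSpace
open Set MeasureTheory Matrix

namespace Pool.Agent.GBS.H41

open Pool.Agent.RF Pool.Agent.MVS Pool.Agent.GBS

theorem ctr_sum {ι : Type*} (s : Finset ι) (u : Fin 5 → ℝ)
    (T : ι → Fin 5 → Fin 5 → Fin 5 → Fin 5 → ℝ) :
    (ctr u fun i j k l => ∑ m ∈ s, T m i j k l) = ∑ m ∈ s, ctr u (T m) := by
  unfold ctr
  symm
  rw [Finset.sum_comm]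
  refine Finset.sum_congr rfl fun i _ => ?_
  rw [Finset.sum_comm]
  refine Finset.sum_congr rfl fun j _ => ?_
  rw [Finset.sum_comm]
  refine Finset.sum_congr rfl fun k _ => ?_
  rw [Finset.sum_comm]
  refine Finset.sum_congr rfl fun l _ => ?_
  exact (Finset.mul_sum _ _ _).symm

theorem ctr_mul (c : ℝ) (u : Fin 5 → ℝ) (T : Fin 5 → Fin 5 → Fin 5 → Fin 5 → ℝ) :
    (ctr u fun i j k l => c * T i j k l) = c * ctr u T := by
  unfold ctr
  rw [Finset.mul_sum]
  refine Finset.sum_congr rfl fun i _ => ?_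
  rw [Finset.mul_sum]
  refine Finset.sum_congr rfl fun j _ => ?_
  rw [Finset.mul_sum]
  refine Finset.sum_congr rfl fun k _ => ?_
  rw [Finset.mul_sum]
  refine Finset.sum_congr rfl fun l _ => ?_
  ring

theorem tr_exp (a b : Fin 5 → Fin 5 → ℝ) (P : Fin 5 → Fin 5 → M5) :
    ((∑ m, ∑ n, a m n • P m n) * (∑ r, ∑ s, b r s • P r s)).trace =
      ∑ m, ∑ n, ∑ r, ∑ s, a m n * b r s * (P m n * P r s).trace := by
  rw [Finset.sum_mul, Matrix.trace_sum]
  refine Finset.sum_congr rfl fun m _ => ?_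
  rw [Finset.sum_mul, Matrix.trace_sum]
  refine Finset.sum_congr rfl fun n _ => ?_
  rw [Finset.mul_sum, Matrix.trace_sum]
  refine Finset.sum_congr rfl fun r _ => ?_
  rw [Finset.mul_sum, Matrix.trace_sum]
  refine Finset.sum_congr rfl fun s _ => ?_
  rw [Matrix.smul_mul, Matrix.mul_smul, Matrix.trace_smul, Matrix.trace_smul, smul_eq_mul,
    smul_eq_mul]
  ring

theorem tr_conj {E θ : M5} (h : θ * E = 1) (A B : M5) :
    ((E * A * θ) * (E * B * θ)).trace = (A * B).trace := by
  have h1 : (E * A * θ) * (E * B * θ) = E * (A * B) * θ := by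
    calc (E * A * θ) * (E * B * θ) = E * A * (θ * E) * B * θ := by
          simp only [Matrix.mul_assoc]
      _ = E * (A * B) * θ := by
          rw [h, Matrix.mul_one]
          simp only [Matrix.mul_assoc]
  rw [h1, Matrix.trace_mul_cycle, h, Matrix.one_mul]

theorem sum5 (f : Fin 5 → ℝ) (h : f 0 = 0) : ∑ a, f a = ∑ a : Fin 4, f a.succ := by
  rw [Fin.sum_univ_succ, h, zero_add]

theorem pfr (hK : KhfStmt) (hT : EptStmt) (hA : EvaStmt) (hE : EmxStmt) : PfrStmt := by
  intro G x F hG hx hF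
  obtain ⟨k0, k1, k2, k3, k4, -⟩ := hK G x F hG hx hF
  obtain ⟨-, -, e2, -, -, e5, -, -⟩ := hE G x F hG hx hF
  have hT2 := fun α β γ δ => (hT G x F hG hx hF α β γ δ).2
  set θ := (Em x F)⁻¹ with hθ
  set R : Fin 5 → Fin 5 → M5 := fun m n => Matrix.of (fun b a => Kh G x F m n a b) with hR
  have h1 : ∀ i j k l, (Rm G x i j * Rm G x k l).trace = ∑ m, ∑ n, ∑ r, ∑ s,
      (R m n * R r s).trace * (θ m i * θ n j * θ r k * θ s l) := by
    intro i j k l
    rw [k4 i j, k4 k l]
    rw [tr_exp (fun m n => θ m i * θ n j) (fun r s => θ r k * θ s l)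
      (fun m n => Em x F * R m n * θ)]
    refine Finset.sum_congr rfl fun m _ => Finset.sum_congr rfl fun n _ =>
      Finset.sum_congr rfl fun r _ => Finset.sum_congr rfl fun s _ => ?_
    rw [tr_conj e2]
    ring
  have h2 : pnt G x = ((Em x F).det)⁻¹ * ctr (Pi.single 0 1) fun m n r s =>
      (R m n * R r s).trace := by
    unfold pnt
    simp only [h1]
    rw [ctr_sum, Finset.mul_sum]
    conv_rhs => unfold ctr
    rw [Finset.mul_sum]
    refine Finset.sum_congr rfl fun m _ => ?_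
    rw [ctr_sum, Finset.mul_sum, Finset.mul_sum]
    refine Finset.sum_congr rfl fun n _ => ?_
    rw [ctr_sum, Finset.mul_sum, Finset.mul_sum]
    refine Finset.sum_congr rfl fun r _ => ?_
    rw [ctr_sum, Finset.mul_sum, Finset.mul_sum]
    refine Finset.sum_congr rfl fun s _ => ?_
    rw [ctr_mul, ← mul_assoc, mul_comm ((‖x‖ ^ 2)⁻¹), mul_assoc, hT2]
    ring
  have h3 : ∀ m n r s, (R m n * R r s).trace =
      ∑ b, ∑ a, (-1) * (Kh G x F m n a b * Kh G x F r s a b) := by
    intro m n r s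
    rw [Matrix.trace]
    refine Finset.sum_congr rfl fun b _ => ?_
    rw [Matrix.diag_apply, Matrix.mul_apply]
    refine Finset.sum_congr rfl fun a _ => ?_
    rw [hR]
    simp only [Matrix.of_apply]
    rw [k3 r s b a]
    ring
  have h4 : (ctr (Pi.single 0 1) fun m n r s => (R m n * R r s).trace) =
      -8 * pont (Kf G x F) := by
    simp only [h3]
    rw [ctr_sum]
    have h5 : ∀ b a : Fin 5, (ctr (Pi.single 0 1) fun m n r s =>
        (-1) * (Kh G x F m n a b * Kh G x F r s a b)) =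
        (-1) * (4 * ∑ p, (Kh G x F (pr p).1.succ (pr p).2.succ a b *
          Kh G x F (ps p).1.succ (ps p).2.succ a b +
          Kh G x F (ps p).1.succ (ps p).2.succ a b *
          Kh G x F (pr p).1.succ (pr p).2.succ a b)) := by
      intro b a
      rw [ctr_mul, hA _ _ (fun i j => k2 i j a b) (fun i j => k2 i j a b)]
    have h6 : ∀ b : Fin 5, (ctr (Pi.single 0 1) fun m n r s =>
        ∑ a, (-1) * (Kh G x F m n a b * Kh G x F r s a b)) =
        ∑ a, (-1) * (4 * ∑ p, (Kh G x F (pr p).1.succ (pr p).2.succ a b *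
          Kh G x F (ps p).1.succ (ps p).2.succ a b +
          Kh G x F (ps p).1.succ (ps p).2.succ a b *
          Kh G x F (pr p).1.succ (pr p).2.succ a b)) := by
      intro b
      rw [ctr_sum]
      exact Finset.sum_congr rfl fun a _ => h5 b a
    rw [Finset.sum_congr rfl fun b _ => h6 b, Finset.sum_comm]
    rw [sum5 _ (by
      refine Finset.sum_eq_zero fun b _ => ?_
      simp [k0 _ _ 0 b (Or.inr (Or.inr (Or.inl rfl)))])]
    unfold pont
    rw [Finset.mul_sum]
    refine Finset.sum_congr rfl fun a _ => ?_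
    rw [sum5 _ (by simp [k0 _ _ a.succ 0 (Or.inr (Or.inr (Or.inr rfl)))]), Finset.mul_sum]
    refine Finset.sum_congr rfl fun b _ => ?_
    rw [Fin.sum_univ_three]
    simp only [k1]
    have h31 : Kf G x F 3 1 a b = - Kf G x F 1 3 a b := by
      have := k2 (3 : Fin 4).succ (1 : Fin 4).succ a.succ b.succ
      rwa [k1, k1] at this
    have p0 : pr 0 = (0, 1) := rfl
    have p1 : pr 1 = (0, 2) := rfl
    have p2 : pr 2 = (0, 3) := rfl
    have q0 : ps 0 = (2, 3) := rfl
    have q1 : ps 1 = (3, 1) := rfl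
    have q2 : ps 2 = (1, 2) := rfl
    rw [p0, p1, p2, q0, q1, q2]
    simp only [h31]
    ring
  have hsd : |((Em x F).det)⁻¹| = sd (G x) := by
    rw [abs_inv]
    have h7 : |(Em x F).det| ≠ 0 := by
      intro h0
      rw [h0, zero_mul] at e5
      exact zero_ne_one e5
    rw [inv_eq_iff_eq_inv, ← one_div, eq_div_iff]
    · exact e5
    · intro h0
      rw [h0, mul_zero] at e5
      exact zero_ne_one e5
  rw [h2, h4, abs_mul, hsd, abs_mul]
  norm_num
  ring

end Pool.Agent.GBS.H41
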