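import Pool.Agent.GBS.StmtsC
import Pool.Agent.Helper14_MVS.SDF

/-!
# GBS, row REX (helper41): the norm of the trace-free Ricci tensor as a function on the sphere
-/

noncomputable section

open scoped ContDiff Topology RealInnerProductSpace
open Set MeasureTheory Matrix

namespace Pool.Agent.GBS.H41

open Pool.Agent.RF Pool.Agent.MVS Pool.Agent.SecondKind Pool.Agent.MinVolSphere

theorem vc_app (x : Fin 5 → ℝ) (i : Fin 5) : (vc x) i = x i := rfl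

theorem vc_inj {x y : Fin 5 → ℝ} (h : vc x = vc y) : x = y := by
  funext i
  rw [← vc_app x i, ← vc_app y i, h]

theorem norm_vc {x : Fin 5 → ℝ} (hx : OnSphere x) : ‖vc x‖ = 1 := by
  have h1 : ‖vc x‖ ^ 2 = 1 := by
    rw [EuclideanSpace.norm_sq_eq]
    have h2 : ∑ i, x i ^ 2 = 1 := hx
    rw [← h2]
    refine Finset.sum_congr rfl fun i _ => ?_
    rw [vc_app, Real.norm_eq_abs, sq_abs]
  have h3 : (0 : ℝ) ≤ ‖vc x‖ := norm_nonneg _
  nlinarith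

theorem vc_om {x : Fin 5 → ℝ} (hx : OnSphere x) : vc x ∈ Om (Fin 5) := by
  intro h0
  have h1 := norm_vc hx
  rw [h0, norm_zero] at h1
  exact zero_ne_one h1

theorem sd_posR {G : E5 → Bil E5} (hG : IsCyl G) {x : E5} (hx : x ∈ Om (Fin 5)) :
    0 < sd (G x) := by
  have h := (Pool.Agent.MVS.H14.sdf (Fin 5)).1 (G x) (hG.metric.symm x hx) (hG.metric.pos x hx)
  exact Real.sqrt_pos.2 h

theorem ric0F_eq {g : Form 4} {G : E5 → Bil E5} {ψ : (Fin 4 → ℝ) → Fin 5 → ℝ} {y : Fin 4 → ℝ}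
    {e : Fin 4 → Fin 4 → ℝ} {x : E5} {F : Fin 4 → E5}
    (h : ∀ a b c d, riemV (comp g ψ) y (e a) (e b) (e c) (e d) = Kf G x F a b c d) :
    ric0F (comp g ψ) y e = Pool.Agent.GBS.H92.ric0 (Kf G x F) := by
  unfold ric0F Pool.Agent.GBS.H92.ric0
  simp only [h]

theorem keyR (hBFO : BfoStmt) (hRNF : RnfStmt) {g : Form 4} {G : E5 → Bil E5} (hC : Cyl2 g G)
    {U : Set (Fin 4 → ℝ)} {ψ : (Fin 4 → ℝ) → Fin 5 → ℝ} (hψ : IsParam U ψ) {y : Fin 4 → ℝ}
    (hy : y ∈ U) {e : Fin 4 → Fin 4 → ℝ} (he : IsFrame (comp g ψ) y e) :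
    rz G (vc (ψ y)) = sd (G (vc (ψ y))) * ric0F (comp g ψ) y e := by
  obtain ⟨h1, _, h3⟩ := hBFO g G hC U ψ hψ y hy
  have hF := h3 e he
  have hx : vc (ψ y) ∈ Om (Fin 5) := vc_om (hψ.sphere y hy)
  rw [(hRNF G _ _ hC.1 hx hF).2]
  rw [ric0F_eq (G := G) (x := vc (ψ y)) (F := fun a => vc (fderiv ℝ ψ y (e a)))
    (fun a b c d => h1 (e a) (e b) (e c) (e d))]

theorem rex (hBFO : BfoStmt) (hBOF : BofStmt) (hRNF : RnfStmt) (hRCT : RctStmt) (hCNT : CntStmt)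
    (hFRM : FrmStmt) : RexStmt := by
  intro g G hC
  obtain ⟨_, hc2, _, _⟩ := hCNT G hC.1
  obtain ⟨hc1, _⟩ := hRCT G hC.1
  refine ⟨⟨fun x => rz G (vc x) / sd (G (vc x)), ?_, ?_⟩, ?_⟩
  · intro U ψ hψ y hy e he
    have hx : vc (ψ y) ∈ Om (Fin 5) := vc_om (hψ.sphere y hy)
    have hs := sd_posR hC.1 hx
    have hk := keyR hBFO hRNF hC hψ hy he
    show rz G (vc (ψ y)) / sd (G (vc (ψ y))) = ric0F (comp g ψ) y e
    rw [hk]
    field_simp
  · have hv : Continuous (vc : (Fin 5 → ℝ) → E5) := (EuclideanSpace.equiv (Fin 5) ℝ).symm.continuous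
    have hm : MapsTo vc {x : Fin 5 → ℝ | OnSphere x} (Om (Fin 5)) := fun x hx => vc_om hx
    have k1 : ContinuousOn (fun x : Fin 5 → ℝ => rz G (vc x)) {x : Fin 5 → ℝ | OnSphere x} :=
      hc1.comp hv.continuousOn hm
    have k2 : ContinuousOn (fun x : Fin 5 → ℝ => sd (G (vc x))) {x : Fin 5 → ℝ | OnSphere x} :=
      hc2.comp hv.continuousOn hm
    refine ContinuousOn.div k1 k2 ?_
    intro x hx
    exact (sd_posR hC.1 (vc_om hx)).ne'
  · intro Q hQ x hx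
    have hxO := vc_om hx
    obtain ⟨F, hF⟩ := hFRM G (vc x) hC.1 hxO
    obtain ⟨U, ψ, y, e, hψ, hy, hyx, he, hK⟩ := hBOF g G hC (vc x) hxO F hF
    rw [norm_vc hx, inv_one, one_smul] at hyx
    have hxy : ψ y = x := vc_inj hyx
    have hQx : Q x = ric0F (comp g ψ) y e := by
      rw [← hxy]
      exact hQ U ψ hψ y hy e he
    rw [hQx, ric0F_eq hK]
    exact (hRNF G _ _ hC.1 hxO hF).2

end Pool.Agent.GBS.H41
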