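import Pool.Agent.GBS.StmtsC
import Pool.Agent.Helper23_MVS.BR3

/-!
GBS, row RIN (helper41): the integral of the squared norm of the trace-free Ricci tensor.
-/

noncomputable section

open scoped ContDiff Topology RealInnerProductSpace
open Set MeasureTheory Matrix

namespace Pool.Agent.GBS.H41

open Pool.Agent.RF Pool.Agent.MVS
open Pool.Agent.SecondKind Pool.Agent.MinVolSphere

theorem rin (hplr : PlrStmt) (hrct : RctStmt) (hrex : RexStmt) : RinStmt := by
  intro g G hC Q hQ
  obtain ⟨hG, hg⟩ := hC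
  obtain ⟨hf, hhom⟩ := hrct G hG
  obtain ⟨hi, he⟩ := hplr (rz G) hf hhom
  refine ⟨hi, ?_⟩
  rw [he]
  unfold integ
  refine integral_congr_ae (Filter.Eventually.of_forall fun x => ?_)
  have hS : OnSphere (fun i => (x : E5) i) := by
    show ∑ i, (x : E5) i ^ 2 = 1
    have h1 : ‖(x : E5)‖ = 1 := by simp
    rw [← EuclideanSpace.real_norm_sq_eq, h1, one_pow]
  have hv : vc (fun i => (x : E5) i) = (x : E5) := by
    ext i
    rfl
  have h2 := (hrex g G ⟨hG, hg⟩).2 Q hQ _ hS
  rw [hv] at h2
  show rz G (x : E5) = Q (fun i => (x : E5) i) * density g (fun i => (x : E5) i)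
  rw [h2, Pool.Agent.MVS.H23.density_eq hG hg hS, hv]
  ring

end Pool.Agent.GBS.H41
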